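import Pool.Agent.H280R3.Thick

set_option autoImplicit false

open Filter Finset

namespace Pool.Agent.Y175.TH

open Pool.Agent.H280R3.SparseDiff

lemma win_add (A : Set ℕ) (t j m : ℕ) : win A t (j + m) = win A t j + win A (t + j) m := by
  classical
  unfold win
  rw [← card_union_of_disjoint]
  · congr 1
    ext k
    simp only [mem_filter, mem_union, mem_Ico]
    constructor
    · rintro ⟨h1, h2⟩
      by_cases h : k < t + j
      · exact Or.inl ⟨⟨h1.1, h⟩, h2⟩
      · exact Or.inr ⟨⟨by omega, by omega⟩, h2⟩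
    · rintro (⟨h1, h2⟩ | ⟨h1, h2⟩)
      · exact ⟨⟨h1.1, by omega⟩, h2⟩
      · exact ⟨⟨by omega, by omega⟩, h2⟩
  · rw [Finset.disjoint_left]
    intro k h1 h2
    simp only [mem_filter, mem_Ico] at h1 h2
    omega

lemma win_le (A : Set ℕ) (t m : ℕ) : win A t m ≤ m := by
  classical
  unfold win
  refine (card_filter_le _ _).trans ?_
  simp

/-- leaders: a set which is dense in arbitrarily long windows has positions all of whose initial
segments up to a given length are dense -/
lemma leader (A : Set ℕ) (δ : ℝ) (hδ : 0 < δ)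
    (hA : ∀ n₀ : ℕ, ∃ n, n₀ ≤ n ∧ ∃ M, δ * n ≤ win A M n) (J : ℕ) :
    ∃ t, ∀ j, 1 ≤ j → j ≤ J → δ / 2 * j ≤ win A t j := by
  by_contra hcon
  push Not at hcon
  have key : ∀ n t : ℕ, (win A t n : ℝ) ≤ δ / 2 * n + J := by
    intro n
    induction n using Nat.strong_induction_on with
    | _ n ih =>
      intro t
      by_cases hn : n ≤ J
      · have h1 : (win A t n : ℝ) ≤ n := by exact_mod_cast win_le A t n
        have h2 : (n : ℝ) ≤ J := by exact_mod_cast hn
        have h3 : (0 : ℝ) ≤ δ / 2 * n := by positivity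
        linarith
      · obtain ⟨j, hj1, hj2, hj3⟩ := hcon t
        have h1 := ih (n - j) (by omega) (t + j)
        have h2 := win_add A t j (n - j)
        rw [show j + (n - j) = n by omega] at h2
        have h3 : ((n - j : ℕ) : ℝ) = (n : ℝ) - j := by
          rw [Nat.cast_sub (by omega)]
        rw [h3] at h1
        have h4 : (win A t n : ℝ) = win A t j + win A (t + j) (n - j) := by exact_mod_cast h2
        rw [h4]
        linarith
  obtain ⟨n₀, hn₀⟩ := exists_nat_gt ((2 * ((J : ℝ) + 1)) / δ)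
  obtain ⟨n, hn, M, hM⟩ := hA n₀
  have h1 := key n M
  have h2 : (n₀ : ℝ) ≤ n := by exact_mod_cast hn
  rw [div_lt_iff₀ hδ] at hn₀
  have h3 : (n₀ : ℝ) * δ ≤ n * δ := mul_le_mul_of_nonneg_right h2 hδ.le
  linarith

/-- Sets of positive upper Banach density contain, up to translation, all finite parts of a set
of positive lower density. -/
lemma exists_dense (A : Set ℕ) (δ : ℝ) (hδ : 0 < δ)
    (hA : ∀ n₀ : ℕ, ∃ n, n₀ ≤ n ∧ ∃ M, δ * n ≤ win A M n) :
    ∃ B : Set ℕ, (∀ N : ℕ, 1 ≤ N → δ / 2 * N ≤ cnt B N) ∧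
      ∀ a ∈ B, ∀ b ∈ B, ∃ a' ∈ A, ∃ b' ∈ A, a' + b = b' + a := by
  classical
  choose t ht using leader A δ hδ hA
  set U : Ultrafilter ℕ := hyperfilter ℕ with hUdef
  have hU : (U : Filter ℕ) ≤ atTop := Nat.hyperfilter_le_atTop
  -- positions are shifted by one, since `cnt` counts in `[1, N]`
  refine ⟨{b | ∀ᶠ J in (U : Filter ℕ), t J + b - 1 ∈ A ∧ 1 ≤ b}, ?_, ?_⟩
  · intro N hN
    have h1 : ∀ᶠ J in (U : Filter ℕ), ∀ b ∈ Icc 1 N,
        (t J + b - 1 ∈ A ↔ b ∈ {b | ∀ᶠ J in (U : Filter ℕ), t J + b - 1 ∈ A ∧ 1 ≤ b}) := by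
      rw [Filter.eventually_all_finset]
      intro b hb
      have hb1 := (mem_Icc.1 hb).1
      rcases Ultrafilter.em U (fun J => t J + b - 1 ∈ A) with h | h
      · filter_upwards [h] with J hJ
        refine ⟨fun _ => ?_, fun _ => hJ⟩
        show ∀ᶠ J in (U : Filter ℕ), t J + b - 1 ∈ A ∧ 1 ≤ b
        filter_upwards [h] with J hJ
        exact ⟨hJ, hb1⟩
      · filter_upwards [h] with J hJ
        refine ⟨fun h' => absurd h' hJ, fun h' => ?_⟩
        exfalso
        change ∀ᶠ J in (U : Filter ℕ), t J + b - 1 ∈ A ∧ 1 ≤ b at h'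
        obtain ⟨J', hJ1, hJ2⟩ := (h.and h').exists
        exact hJ1 hJ2.1
    obtain ⟨J, hJ1, hJ2⟩ := (h1.and (Filter.Eventually.filter_mono hU
      (eventually_ge_atTop N))).exists
    refine (ht J N hN hJ2).trans ?_
    have h2 : win A (t J) N ≤
        cnt {b | ∀ᶠ J in (U : Filter ℕ), t J + b - 1 ∈ A ∧ 1 ≤ b} N := by
      unfold win cnt
      refine card_le_card_of_injOn (fun k => k + 1 - t J) ?_ ?_
      · intro k hk
        simp only [coe_filter, mem_Ico, Set.mem_ofPred_eq] at hk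
        simp only [coe_filter, Set.mem_ofPred_eq]
        have hm : k + 1 - t J ∈ Icc 1 N := by
          rw [mem_Icc]
          omega
        refine ⟨hm, ?_⟩
        have h3 := (hJ1 _ hm).1
        have h4 : t J + (k + 1 - t J) - 1 = k := by omega
        rw [h4] at h3
        exact h3 hk.2
      · intro k hk k' hk' h
        simp only [coe_filter, mem_Ico, Set.mem_ofPred_eq] at hk hk' h
        omega
    exact_mod_cast h2
  · intro a ha b hb
    obtain ⟨J, hJ1, hJ2⟩ := (Filter.Eventually.and ha hb).exists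
    exact ⟨_, hJ1.1, _, hJ2.1, by have := hJ1.2; have := hJ2.2; omega⟩

end Pool.Agent.Y175.TH
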