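import Pool.Agent.H280R3.Thick

set_option autoImplicit false

open Filter Finset

namespace Pool.Agent.Y175.TH

open Pool.Agent.H280R3.SparseDiff

lemma Sparse.mono {S T : Set ℕ} (h : S ⊆ T) (hT : Sparse T) : Sparse S := by
  classical
  intro ε hε
  obtain ⟨W, hW⟩ := hT ε hε
  refine ⟨W, fun n hn M => le_trans ?_ (hW n hn M)⟩
  unfold win
  exact_mod_cast card_le_card (fun k hk => by
    simp only [mem_filter] at hk ⊢
    exact ⟨hk.1, h hk.2⟩)

lemma bad_subset (E : Set ℕ) (x L : ℕ) : Bad E x L ⊆ E := fun _ he => he.1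

/-- a common translate for finitely many sets, inside a thick set, along an ultrafilter of
scales -/
lemma pick (n : ℕ) (F : ℕ → Set ℕ) (hF : ∀ j ≤ n, Sparse (F j)) (ν : ℕ → ℕ → ℕ)
    (U : Ultrafilter ℕ) (T : Set ℕ) (hT : ∀ n, ∃ y, ∀ t ≤ n, y + t ∈ T) (L a : ℕ)
    (δ : ℝ) (hδ : 0 < δ) :
    ∃ x, a < x ∧ (∀ t ≤ L, x + t ∈ T) ∧ ∀ᶠ k in (U : Filter ℕ), ∀ j ≤ n,
      (cnt (Bad (F j) x L) (ν j k) : ℝ) ≤ δ * cnt (F j) (ν j k) := by
  classical
  have hε : (0 : ℝ) < δ / (2 * ((n : ℝ) + 1) * ((L : ℝ) + 1)) := by positivity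
  have hW0 : ∀ j, ∃ W : ℕ, j ≤ n → ∀ m, W ≤ m → ∀ M,
      (win (F j) M m : ℝ) ≤ δ / (2 * ((n : ℝ) + 1) * ((L : ℝ) + 1)) * m := by
    intro j
    by_cases hj : j ≤ n
    · obtain ⟨W, hW⟩ := hF j hj _ hε
      exact ⟨W, fun _ => hW⟩
    · exact ⟨0, fun h => absurd h hj⟩
  choose W hW using hW0
  set X := (∑ j ∈ range (n + 1), W j) + L + 1 with hX
  obtain ⟨y0, hy0⟩ := hT (a + 1 + X + L)
  set y := y0 + a + 1 with hy
  -- for each index there is a good translate
  have key : ∀ k : ℕ, ∃ x ∈ Ico y (y + X), ∀ j ≤ n,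
      (cnt (Bad (F j) x L) (ν j k) : ℝ) ≤ δ * cnt (F j) (ν j k) := by
    intro k
    by_contra hcon
    push Not at hcon
    have h1 : ∀ j ∈ range (n + 1),
        ∑ x ∈ Ico y (y + X), ((cnt (Bad (F j) x L) (ν j k) : ℝ) / cnt (F j) (ν j k)) ≤
          ((L : ℝ) + 1) * (δ / (2 * ((n : ℝ) + 1) * ((L : ℝ) + 1)) * ((X + L : ℕ) : ℝ)) := by
      intro j hj
      have hjn : j ≤ n := by
        have := mem_range.1 hj
        omega
      rw [← Finset.sum_div]
      refine div_le_of_le_mul₀ (by positivity) (by positivity) ?_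
      refine sum_bad (F j) y X L (ν j k) _ (fun M => hW j hjn (X + L) ?_ M)
      have : W j ≤ ∑ j ∈ range (n + 1), W j := Finset.single_le_sum (fun _ _ => Nat.zero_le _) hj
      omega
    have h2 : ∀ x ∈ Ico y (y + X),
        δ < ∑ j ∈ range (n + 1), ((cnt (Bad (F j) x L) (ν j k) : ℝ) / cnt (F j) (ν j k)) := by
      intro x hx
      obtain ⟨j, hj, hlt⟩ := hcon x hx
      have hle : (cnt (Bad (F j) x L) (ν j k) : ℝ) ≤ cnt (F j) (ν j k) := by
        exact_mod_cast cnt_mono (bad_subset _ _ _) _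
      have hpos : (0 : ℝ) < cnt (F j) (ν j k) := by
        by_contra h0
        have h00 : (cnt (F j) (ν j k) : ℝ) = 0 := le_antisymm (not_lt.1 h0) (by positivity)
        rw [h00] at hlt hle
        linarith
      have h3 : δ < (cnt (Bad (F j) x L) (ν j k) : ℝ) / cnt (F j) (ν j k) := by
        rw [lt_div_iff₀ hpos]
        exact hlt
      exact lt_of_lt_of_le h3 (Finset.single_le_sum
        (f := fun j => (cnt (Bad (F j) x L) (ν j k) : ℝ) / cnt (F j) (ν j k))
        (fun _ _ => by positivity) (mem_range.2 (by omega)))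
    have hne : (Ico y (y + X)).Nonempty := ⟨y, by simp only [mem_Ico]; omega⟩
    have h3 := Finset.sum_lt_sum_of_nonempty hne h2
    rw [Finset.sum_const, Nat.card_Ico, nsmul_eq_mul, Finset.sum_comm] at h3
    have h4 := Finset.sum_le_sum h1
    rw [Finset.sum_const, Finset.card_range, nsmul_eq_mul] at h4
    have h5 : ((y + X - y : ℕ) : ℝ) = X := by
      congr 1
      omega
    rw [h5] at h3
    have h6 : ((n + 1 : ℕ) : ℝ) * (((L : ℝ) + 1) *
        (δ / (2 * ((n : ℝ) + 1) * ((L : ℝ) + 1)) * ((X + L : ℕ) : ℝ))) =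
        δ / 2 * ((X : ℝ) + L) := by
      push_cast
      field_simp
    rw [h6] at h4
    have h7 : (L : ℝ) ≤ X := by
      rw [hX]
      push_cast
      have : (0 : ℝ) ≤ ∑ j ∈ range (n + 1), (W j : ℝ) := Finset.sum_nonneg fun _ _ => by positivity
      linarith
    nlinarith
  have h7 : ∀ᶠ k in (U : Filter ℕ), ∃ x ∈ (↑(Ico y (y + X)) : Set ℕ), ∀ j ≤ n,
      (cnt (Bad (F j) x L) (ν j k) : ℝ) ≤ δ * cnt (F j) (ν j k) :=
    Filter.Eventually.of_forall (fun k => by
      obtain ⟨x, hx, h⟩ := key k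
      exact ⟨x, by exact_mod_cast hx, h⟩)
  rw [Ultrafilter.eventually_exists_mem_iff (Finset.finite_toSet _)] at h7
  obtain ⟨x, hx, h⟩ := h7
  have hx' := mem_Ico.1 (by exact_mod_cast hx : x ∈ Ico y (y + X))
  refine ⟨x, by omega, fun t ht => ?_, h⟩
  have := hy0 (x + t - y0) (by omega)
  have h8 : y0 + (x + t - y0) = x + t := by omega
  rwa [h8] at this

/-- a residue class which keeps a positive proportion along an ultrafilter of scales -/
lemma pick_class (F : Set ℕ) (ν : ℕ → ℕ) (U : Ultrafilter ℕ) (K : ℕ) :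
    ∃ r : ℕ, ∀ᶠ k in (U : Filter ℕ), (1 / ((K : ℝ) + 1)) * cnt F (ν k) ≤
      cnt (F ∩ {m | m % (K + 1) = r}) (ν k) := by
  classical
  have key : ∀ k : ℕ, ∃ r ∈ range (K + 1), (1 / ((K : ℝ) + 1)) * cnt F (ν k) ≤
      cnt (F ∩ {m | m % (K + 1) = r}) (ν k) := by
    intro k
    by_contra hcon
    push Not at hcon
    have h1 := Finset.sum_lt_sum_of_nonempty (⟨0, by simp⟩ : (range (K + 1)).Nonempty) hcon
    have h2 : ((cnt F (ν k) : ℕ) : ℝ) =
        ∑ r ∈ range (K + 1), (cnt (F ∩ {m | m % (K + 1) = r}) (ν k) : ℝ) := by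
      have h3 : cnt F (ν k) = ∑ r ∈ range (K + 1), cnt (F ∩ {m | m % (K + 1) = r}) (ν k) := by
        unfold cnt
        rw [Finset.card_eq_sum_card_fiberwise (f := fun m => m % (K + 1)) (t := range (K + 1))
          (fun m _ => by
            simp only [coe_range, Set.mem_Iio]
            exact Nat.mod_lt _ (Nat.succ_pos _))]
        refine Finset.sum_congr rfl fun r _ => ?_
        congr 1
        ext m
        simp only [mem_filter, Set.mem_inter_iff, Set.mem_ofPred_eq]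
        tauto
      rw [h3]
      push_cast
      rfl
    rw [Finset.sum_const, Finset.card_range, nsmul_eq_mul] at h1
    rw [← h2] at h1
    have h4 : ((K + 1 : ℕ) : ℝ) * (1 / ((K : ℝ) + 1) * cnt F (ν k)) = cnt F (ν k) := by
      push_cast
      field_simp
    rw [h4] at h1
    exact lt_irrefl _ h1
  have h7 : ∀ᶠ k in (U : Filter ℕ), ∃ r ∈ (↑(range (K + 1)) : Set ℕ),
      (1 / ((K : ℝ) + 1)) * cnt F (ν k) ≤ cnt (F ∩ {m | m % (K + 1) = r}) (ν k) :=
    Filter.Eventually.of_forall (fun k => by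
      obtain ⟨r, hr, h⟩ := key k
      exact ⟨r, by exact_mod_cast hr, h⟩)
  rw [Ultrafilter.eventually_exists_mem_iff (Finset.finite_toSet _)] at h7
  obtain ⟨r, -, h⟩ := h7
  exact ⟨r, h⟩

end Pool.Agent.Y175.TH
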