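import Pool.Agent.Y175.TH.Core

set_option autoImplicit false

open Filter Finset

namespace Pool.Agent.Y175.TH

open Pool.Agent.H280R3.SparseDiff

/-- the state of the recursion: current sets, constants, scale -/
structure St where
  A : ℕ → Set ℕ
  c : ℕ → ℝ
  K : ℕ

def Good (F : ℕ → Set ℕ) (ν : ℕ → ℕ → ℕ) (U : Ultrafilter ℕ) (η : ℝ) (n : ℕ) (p : St) : Prop :=
  (∀ j, p.A j ⊆ F j) ∧ (∀ j, n ≤ j → p.A j = F j) ∧
  (∀ j < n, 1 / ((p.K : ℝ) + 1) ≤ p.c j) ∧
  (∀ j < n, ∀ᶠ k in (U : Filter ℕ),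
    p.c j * (1 - η * (1 - (1 / 2) ^ n)) * cnt (F j) (ν j k) ≤ cnt (p.A j) (ν j k))

def Rel (F : ℕ → Set ℕ) (ν : ℕ → ℕ → ℕ) (T : Set ℕ) (η : ℝ) (n : ℕ) (p p' : St) : Prop :=
  (∀ j < n, p'.c j = p.c j) ∧ p'.c n = 1 / ((p.K : ℝ) + 1) ∧ p.K < p'.K ∧
  (∃ x, p.K < x ∧ x + n ≤ p'.K ∧ (∀ t ≤ n, x + t ∈ T) ∧
    ∀ j ≤ n, ∀ a ∈ p'.A j, ∀ b ∈ p'.A j, ¬ (b + x ≤ a ∧ a ≤ b + x + n)) ∧
  (∀ j, p'.A j ⊆ p.A j) ∧ (∀ j, j ≠ n → ∀ a ∈ p.A j, a ≤ p.K → a ∈ p'.A j) ∧
  (∀ a ∈ p'.A n, ∀ b ∈ p'.A n, a % (p.K + 1) = b % (p.K + 1)) ∧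
  (∀ j ≤ n, ∃ k, p.K < ν j k ∧ ν j k ≤ p'.K ∧
    p'.c j * (1 - η) * cnt (F j) (ν j k) ≤ cnt (p'.A j) (ν j k))

lemma step (F : ℕ → Set ℕ) (hF : ∀ j, Sparse (F j)) (ν : ℕ → ℕ → ℕ) (hν : ∀ j, StrictMono (ν j))
    (U : Ultrafilter ℕ) (hU : (U : Filter ℕ) ≤ atTop) (T : Set ℕ)
    (hT : ∀ n, ∃ y, ∀ t ≤ n, y + t ∈ T) (η : ℝ) (hη : 0 < η) (hη1 : η ≤ 1)
    (n : ℕ) (p : St) (hp : Good F ν U η n p) :
    ∃ p', Good F ν U η (n + 1) p' ∧ Rel F ν T η n p p' := by
  classical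
  obtain ⟨hp1, hp2, hp3, hp4⟩ := hp
  obtain ⟨r, hr⟩ := pick_class (F n) (ν n) U p.K
  -- the sets after activation of the set number `n`
  set G : ℕ → Set ℕ := fun j => if j = n then F n ∩ {m | m % (p.K + 1) = r} else p.A j with hG
  have hGn : G n = F n ∩ {m | m % (p.K + 1) = r} := by simp [hG]
  have hGj : ∀ j, j ≠ n → G j = p.A j := fun j hj => by simp [hG, hj]
  have hGF : ∀ j, G j ⊆ F j := by
    intro j
    by_cases hj : j = n
    · subst hj; rw [hGn]; exact Set.inter_subset_left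
    · rw [hGj j hj]; exact hp1 j
  have hGA : ∀ j, G j ⊆ p.A j := by
    intro j
    by_cases hj : j = n
    · subst hj; rw [hGn, hp2 j le_rfl]; exact Set.inter_subset_left
    · rw [hGj j hj]
  set c' : ℕ → ℝ := fun j => if j = n then 1 / ((p.K : ℝ) + 1) else p.c j with hc'
  have hc'n : c' n = 1 / ((p.K : ℝ) + 1) := by simp [hc']
  have hc'j : ∀ j, j ≠ n → c' j = p.c j := fun j hj => by simp [hc', hj]
  have hc'low : ∀ j ≤ n, 1 / ((p.K : ℝ) + 1) ≤ c' j := by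
    intro j hj
    by_cases hjn : j = n
    · subst hjn; rw [hc'n]
    · rw [hc'j j hjn]; exact hp3 j (by omega)
  have hpow : ∀ m : ℕ, (0 : ℝ) < (1 / 2) ^ m := fun m => by positivity
  have hpow1 : ∀ m : ℕ, ((1 : ℝ) / 2) ^ m ≤ 1 := fun m =>
    pow_le_one₀ (by norm_num) (by norm_num)
  have hGlow : ∀ j ≤ n, ∀ᶠ k in (U : Filter ℕ),
      c' j * (1 - η * (1 - (1 / 2) ^ n)) * cnt (F j) (ν j k) ≤ cnt (G j) (ν j k) := by
    intro j hj
    by_cases hjn : j = n
    · subst hjn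
      filter_upwards [hr] with k hk
      rw [hGn, hc'n]
      refine le_trans ?_ hk
      have h1 : 1 - η * (1 - (1 / 2) ^ j) ≤ 1 := by
        have := hpow1 j
        nlinarith
      have h2 : (0 : ℝ) ≤ 1 / ((p.K : ℝ) + 1) := by positivity
      have h3 : (0 : ℝ) ≤ cnt (F j) (ν j k) := by positivity
      have h4 : 1 / ((p.K : ℝ) + 1) * (1 - η * (1 - (1 / 2) ^ j)) ≤ 1 / ((p.K : ℝ) + 1) := by
        nlinarith
      exact mul_le_mul_of_nonneg_right h4 h3
    · rw [hc'j j hjn, hGj j hjn]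
      exact hp4 j (by omega)
  have hδ : 0 < η * (1 / 2) ^ (n + 1) / ((p.K : ℝ) + 1) := by positivity
  obtain ⟨x, hx1, hx2, hx3⟩ := pick n G (fun j _ => Sparse.mono (hGF j) (hF j)) ν U T hT n p.K
    (η * (1 / 2) ^ (n + 1) / ((p.K : ℝ) + 1)) hδ
  set A' : ℕ → Set ℕ := fun j => if j ≤ n then G j \ Bad (G j) x n else G j with hA'
  have hA'j : ∀ j, j ≤ n → A' j = G j \ Bad (G j) x n := fun j hj => by simp [hA', hj]
  have hA'o : ∀ j, n < j → A' j = G j := fun j hj => by simp [hA', hj]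
  have hA'G : ∀ j, A' j ⊆ G j := by
    intro j
    by_cases hj : j ≤ n
    · rw [hA'j j hj]; exact Set.sdiff_subset
    · rw [hA'o j (by omega)]
  have hfin : ∀ᶠ k in (U : Filter ℕ), ∀ j ≤ n,
      c' j * (1 - η * (1 - (1 / 2) ^ (n + 1))) * cnt (F j) (ν j k) ≤ cnt (A' j) (ν j k) := by
    have h1 : ∀ᶠ k in (U : Filter ℕ), ∀ j ≤ n,
        c' j * (1 - η * (1 - (1 / 2) ^ n)) * cnt (F j) (ν j k) ≤ cnt (G j) (ν j k) := by
      have := (Filter.eventually_all_finset (range (n + 1))).2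
        (fun j hj => hGlow j (by have := mem_range.1 hj; omega))
      filter_upwards [this] with k hk j hj
      exact hk j (mem_range.2 (by omega))
    filter_upwards [h1, hx3] with k h2 h3 j hj
    have h4 := h2 j hj
    have h5 := h3 j hj
    have h6 : (cnt (G j) (ν j k) : ℝ) ≤ cnt (A' j) (ν j k) + cnt (Bad (G j) x n) (ν j k) := by
      rw [hA'j j hj]
      have h7 := cnt_union (G j \ Bad (G j) x n) (Bad (G j) x n) (ν j k)
      rw [Set.sdiff_union_of_subset (bad_subset _ _ _)] at h7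
      exact_mod_cast h7
    have h8 : (cnt (G j) (ν j k) : ℝ) ≤ cnt (F j) (ν j k) := by
      exact_mod_cast cnt_mono (hGF j) _
    have h9 := hc'low j hj
    have h10 : (0 : ℝ) ≤ cnt (F j) (ν j k) := by positivity
    have h11 : (cnt (Bad (G j) x n) (ν j k) : ℝ) ≤
        η * (1 / 2) ^ (n + 1) * c' j * cnt (F j) (ν j k) := by
      refine h5.trans ?_
      have h12 : η * (1 / 2) ^ (n + 1) / ((p.K : ℝ) + 1) ≤ η * (1 / 2) ^ (n + 1) * c' j := by
        rw [div_eq_mul_one_div]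
        exact mul_le_mul_of_nonneg_left h9 (by positivity)
      calc η * (1 / 2) ^ (n + 1) / ((p.K : ℝ) + 1) * (cnt (G j) (ν j k) : ℝ)
          ≤ η * (1 / 2) ^ (n + 1) / ((p.K : ℝ) + 1) * (cnt (F j) (ν j k) : ℝ) :=
            mul_le_mul_of_nonneg_left h8 hδ.le
        _ ≤ _ := mul_le_mul_of_nonneg_right h12 h10
    have h13 : c' j * (1 - η * (1 - (1 / 2) ^ (n + 1))) * (cnt (F j) (ν j k) : ℝ) =
        c' j * (1 - η * (1 - (1 / 2) ^ n)) * cnt (F j) (ν j k) -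
          η * (1 / 2) ^ (n + 1) * c' j * cnt (F j) (ν j k) := by
      rw [pow_succ]
      ring
    rw [h13]
    linarith
  -- a common index
  obtain ⟨k, hk1, hk2⟩ := (hfin.and (Filter.Eventually.filter_mono hU
    (eventually_gt_atTop p.K))).exists
  set K' := (∑ j ∈ range (n + 1), ν j k) + x + n with hK'
  have hνK : ∀ j ≤ n, ν j k ≤ K' := by
    intro j hj
    have : ν j k ≤ ∑ j ∈ range (n + 1), ν j k :=
      Finset.single_le_sum (f := fun j => ν j k) (fun _ _ => Nat.zero_le _)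
        (mem_range.2 (by omega))
    omega
  refine ⟨⟨A', c', K'⟩, ⟨?_, ?_, ?_, ?_⟩, ?_, hc'n, ?_, ⟨x, hx1, ?_, hx2, ?_⟩, ?_, ?_, ?_, ?_⟩
  · exact fun j => (hA'G j).trans (hGF j)
  · intro j hj
    show A' j = F j
    rw [hA'o j (by omega), hGj j (by omega), hp2 j (by omega)]
  · intro j hj
    show 1 / ((K' : ℝ) + 1) ≤ c' j
    refine le_trans ?_ (hc'low j (by omega))
    have : (p.K : ℝ) ≤ K' := by
      have : p.K ≤ K' := by omega
      exact_mod_cast this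
    exact one_div_le_one_div_of_le (by positivity) (by linarith)
  · intro j hj
    filter_upwards [hfin] with k hk
    exact hk j (by omega)
  · intro j hj
    exact hc'j j (by omega)
  · show p.K < K'
    omega
  · show x + n ≤ K'
    omega
  · rintro j hj a ha b hb ⟨h1, h2⟩
    change a ∈ A' j at ha
    change b ∈ A' j at hb
    rw [hA'j j hj] at ha hb
    exact ha.2 ⟨ha.1, b, hb.1, h1, h2⟩
  · exact fun j => (hA'G j).trans (hGA j)
  · intro j hj a ha haK
    show a ∈ A' j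
    by_cases hjn : j ≤ n
    · rw [hA'j j hjn, hGj j hj]
      refine ⟨ha, ?_⟩
      rintro ⟨-, e', -, h3, -⟩
      omega
    · rw [hA'o j (by omega), hGj j hj]
      exact ha
  · intro a ha b hb
    have h1 := hA'G n ha
    have h2 := hA'G n hb
    rw [hGn] at h1 h2
    have h3 : a % (p.K + 1) = r := h1.2
    have h4 : b % (p.K + 1) = r := h2.2
    rw [h3, h4]
  · intro j hj
    refine ⟨k, lt_of_lt_of_le hk2 ((hν j).id_le k), hνK j hj, ?_⟩
    show c' j * (1 - η) * (cnt (F j) (ν j k) : ℝ) ≤ cnt (A' j) (ν j k)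
    refine le_trans ?_ (hk1 j hj)
    refine mul_le_mul_of_nonneg_right ?_ (by positivity)
    refine mul_le_mul_of_nonneg_left ?_ (le_trans (by positivity) (hc'low j hj))
    have := hpow (n + 1)
    nlinarith

/-- The simultaneous construction: thickness inside a given thick set, countably many sets of
upper Banach density zero, with prescribed scales; the constant of the set number zero is one. -/
theorem core (T : Set ℕ) (hT : ∀ n, ∃ y, ∀ t ≤ n, y + t ∈ T) (F : ℕ → Set ℕ)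
    (hF : ∀ j, Sparse (F j)) (ν : ℕ → ℕ → ℕ) (hν : ∀ j, StrictMono (ν j)) (η : ℝ) (hη : 0 < η)
    (hη1 : η ≤ 1) :
    ∃ (A : ℕ → Set ℕ) (x : ℕ → ℕ) (c : ℕ → ℝ), (∀ j, A j ⊆ F j) ∧
      (∀ n, 0 < x n ∧ ∀ t ≤ n, x n + t ∈ T) ∧
      (∀ j n, ∀ a ∈ A j, ∀ b ∈ A j, ¬ (b + x n ≤ a ∧ a ≤ b + x n + n)) ∧
      c 0 = 1 ∧ (∀ j, 0 < c j) ∧
      ∀ j, ∃ᶠ N in atTop, N ∈ Set.range (ν j) ∧ c j * (1 - η) * cnt (F j) N ≤ cnt (A j) N := by
  classical
  set U : Ultrafilter ℕ := hyperfilter ℕ with hUdef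
  have hU : (U : Filter ℕ) ≤ atTop := Nat.hyperfilter_le_atTop
  obtain ⟨f, hf0, hfK, hfG, hf⟩ : ∃ f : ℕ → St, (f 0).A = F ∧ (f 0).K = 0 ∧
      (∀ n, Good F ν U η n (f n)) ∧ ∀ n, Rel F ν T η n (f n) (f (n + 1)) := by
    choose g hg1 hg2 using step F hF ν hν U hU T hT η hη hη1
    let P : (n : ℕ) → {p : St // Good F ν U η n p} := fun n =>
      Nat.rec ⟨⟨F, fun _ => 0, 0⟩, fun j => subset_rfl, fun j _ => rfl,
        fun j hj => absurd hj (Nat.not_lt_zero _), fun j hj => absurd hj (Nat.not_lt_zero _)⟩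
        (fun n p => ⟨g n p.1 p.2, hg1 n p.1 p.2⟩) n
    exact ⟨fun n => (P n).1, rfl, rfl, fun n => (P n).2, fun n => hg2 n (P n).1 (P n).2⟩
  have hKmono : StrictMono (fun n => (f n).K) := strictMono_nat_of_lt_succ (fun n => (hf n).2.2.1)
  choose x hxK hxK' hxT hxA using fun n => (hf n).2.2.2.1
  have hAanti : ∀ j, Antitone (fun n => (f n).A j) :=
    fun j => antitone_nat_of_succ_le (fun n => (hf n).2.2.2.2.1 j)
  have hcst : ∀ j n, j < n → (f n).c j = 1 / (((f j).K : ℝ) + 1) := by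
    intro j n hjn
    induction n with
    | zero => omega
    | succ n ih =>
      rcases Nat.lt_succ_iff_lt_or_eq.1 hjn with h | h
      · rw [(hf n).1 j h]
        exact ih h
      · subst h
        exact (hf j).2.1
  -- elements up to the scale survive
  have hsurv : ∀ j n m, j < n → n ≤ m → ∀ a ∈ (f n).A j, a ≤ (f n).K → a ∈ (f m).A j := by
    intro j n m hjn hnm
    induction m, hnm using Nat.le_induction with
    | base => exact fun a ha _ => ha
    | succ m hnm ih =>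
      intro a ha haK
      refine (hf m).2.2.2.2.2.1 j (by omega) a (ih a ha haK) (haK.trans ?_)
      exact hKmono.monotone hnm
  refine ⟨fun j => {a | ∀ n, a ∈ (f n).A j}, x, fun j => 1 / (((f j).K : ℝ) + 1), ?_, ?_, ?_, ?_,
    ?_, ?_⟩
  · intro j a ha
    have h1 := ha 0
    rw [hf0] at h1
    exact h1
  · exact fun n => ⟨by have := hxK n; omega, hxT n⟩
  · rintro j n a ha b hb ⟨h1, h2⟩
    by_cases hjn : j ≤ n
    · exact hxA n j hjn a (ha (n + 1)) b (hb (n + 1)) ⟨h1, h2⟩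
    · have h3 := (hf j).2.2.2.2.2.2.1 a (ha (j + 1)) b (hb (j + 1))
      have h4 : (f (n + 1)).K ≤ (f j).K := hKmono.monotone (by omega)
      have h5 := hxK n
      have h6 := hxK' n
      have h7 : b ≤ a := by omega
      have h8 : (f j).K + 1 ∣ a - b := (Nat.modEq_iff_dvd' h7).1 h3.symm
      have h9 := Nat.le_of_dvd (by omega) h8
      omega
  · simp [hfK]
  · intro j
    positivity
  · intro j
    rw [frequently_atTop]
    intro m
    set n := j + m with hn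
    obtain ⟨k, hk1, hk2, hk3⟩ := (hf n).2.2.2.2.2.2.2 j (by omega)
    refine ⟨ν j k, ?_, ⟨k, rfl⟩, ?_⟩
    · have := hKmono.id_le n
      simp only [id] at this
      omega
    · rw [hcst j (n + 1) (by omega)] at hk3
      refine hk3.trans ?_
      have : cnt ((f (n + 1)).A j) (ν j k) ≤ cnt {a | ∀ n, a ∈ (f n).A j} (ν j k) := by
        unfold cnt
        refine card_le_card (fun a ha => ?_)
        simp only [mem_filter, mem_Icc, Set.mem_ofPred_eq] at ha ⊢
        refine ⟨ha.1, fun i => ?_⟩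
        by_cases hi : n + 1 ≤ i
        · exact hsurv j (n + 1) i (by omega) hi a ha.2 (by omega)
        · exact hAanti j (by omega : i ≤ n + 1) ha.2
      exact_mod_cast this

end Pool.Agent.Y175.TH
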